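import Pool.Agent.Lib.MP_5d6127_an.Chain

set_option autoImplicit false

namespace Pool.Agent.Results.MP_5d6127_an.SharpBound

open Pool.Agent.Lib.MP_5d6127_an Set

theorem upper102 {M : ℝ} {f : ℂ × ℂ → ℂ × ℂ} (hf : f ∈ S0M M) : ‖a102 f‖ ≤ min 1 (M - 1) := by
  obtain ⟨⟨F, hF, hfF⟩, hb⟩ := hf
  rw [a102_congr hfF]
  refine le_min (chain_bound hF) ?_
  have h := bound_fst (f := F 0) (C := M) (hF.holomorphic 0 le_rfl) (hF.deriv_zero 0 le_rfl)
    (fun z hz => by
      rw [← hfF hz]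
      exact (le_max_left _ _).trans (hb z hz))
  rw [Real.exp_zero, Complex.ofReal_one, norm_one] at h
  linarith

/-- For every `M > 1` the sharp bound for both coefficients on `S⁰(U², M)` is `min {1, M - 1}`,
which exceeds the conjectured `1 - 1/M`. -/
theorem result : ∀ M : ℝ, 1 < M →
    IsGreatest ((fun f => ‖a102 f‖) '' S0M M) (min 1 (M - 1)) ∧
    IsGreatest ((fun f => ‖a220 f‖) '' S0M M) (min 1 (M - 1)) ∧
    1 - 1 / M < min 1 (M - 1) := by
  intro M hM
  have h0 : 0 ≤ min 1 (M - 1) := le_min zero_le_one (by linarith)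
  have hmem : shear (min 1 (M - 1)) ∈ S0M M :=
    shear_mem h0 (min_le_left _ _) (by linarith [min_le_right 1 (M - 1)])
  have hnorm : ‖a102 (shear (min 1 (M - 1)))‖ = min 1 (M - 1) := by
    rw [shear_a102, Complex.norm_real, Real.norm_of_nonneg h0]
  refine ⟨⟨⟨_, hmem, hnorm⟩, ?_⟩, ⟨⟨_, S0M_swap hmem, ?_⟩, ?_⟩, ?_⟩
  · rintro _ ⟨f, hf, rfl⟩
    exact upper102 hf
  · simp only
    rw [a220_swap]
    exact hnorm
  · rintro _ ⟨f, hf, rfl⟩
    simp only
    rw [← a102_swap f]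
    exact upper102 (S0M_swap hf)
  · have hM0 : 0 < M := by linarith
    refine lt_min ?_ ?_
    · have : 0 < 1 / M := by positivity
      linarith
    · have h1 : 1 - 1 / M = (M - 1) / M := by field_simp
      rw [h1, div_lt_iff₀ hM0]
      nlinarith

end Pool.Agent.Results.MP_5d6127_an.SharpBound
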